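import Mathlib
import Pool.Agent.K1H47.CO.Stm

/-!
# Piece `S_DIM` of the project CO (helper47): a dimension count
-/

set_option autoImplicit false

namespace Pool.Agent.K1H24.CO

open MvPolynomial Module

universe u

section

variable {K : Type u} [Field K]

lemma finrank_homog (d : ℕ) :
    finrank K (homogeneousSubmodule (Fin 4) K d) = (d + 3).choose 3 := by
  classical
  have h1 : {e : Fin 4 →₀ ℕ | e.degree = d} =
      ((Finset.univ : Finset (Fin 4)).finsuppAntidiag d : Set (Fin 4 →₀ ℕ)) := by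
    ext e
    simp only [Set.mem_ofPred_eq, Finset.mem_coe, Finset.mem_finsuppAntidiag,
      Finset.subset_univ, and_true]
    rw [Finsupp.degree_eq_sum]
  have h2 : finrank K (homogeneousSubmodule (Fin 4) K d) =
      finrank K ({e : Fin 4 →₀ ℕ | e.degree = d} →₀ K) := by
    rw [homogeneousSubmodule_eq_finsupp_supported]
    exact (AddMonoidAlgebra.supportedEquivFinsupp _).finrank_eq
  rw [h2, h1, finrank_finsupp_self]
  simp only [Finset.coe_sort_coe, Fintype.card_coe]
  rw [Finset.card_finsuppAntidiag_nat_eq_choose]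
  simp only [Finset.card_univ, Fintype.card_fin]
  have : 4 + d - 1 = d + 3 := by omega
  rw [this, ← Nat.choose_symm_add]

instance fin_homog (d : ℕ) : Module.Finite K (homogeneousSubmodule (Fin 4) K d) :=
  Module.Finite.iff_fg.2 (homogeneousSubmodule_fg (Fin 4) K d)

lemma hom_of_mul {F G : MvPolynomial (Fin 4) K} {a b : ℕ} (hF : F.IsHomogeneous a)
    (hF0 : F ≠ 0) (h : (G * F).IsHomogeneous (b + a)) : G.IsHomogeneous b := by
  have h1 : homogeneousComponent b G * F = G * F := by
    have h2 : homogeneousComponent (b + a) (G * F) = G * F := by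
      rw [homogeneousComponent_of_mem ((mem_homogeneousSubmodule _ _).mpr h), if_pos rfl]
    rw [← h2]
    conv_rhs => rw [← sum_homogeneousComponent G, Finset.sum_mul, map_sum]
    have h3 : ∀ i ∈ Finset.range (G.totalDegree + 1),
        homogeneousComponent (b + a) (homogeneousComponent i G * F) =
          if i = b then homogeneousComponent b G * F else 0 := by
      intro i _
      have h3 : (homogeneousComponent i G * F).IsHomogeneous (i + a) :=
        (homogeneousComponent_isHomogeneous i G).mul hF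
      rw [homogeneousComponent_of_mem ((mem_homogeneousSubmodule _ _).mpr h3)]
      by_cases h4 : i = b
      · rw [if_pos h4, if_pos (by omega), h4]
      · rw [if_neg h4, if_neg (by omega)]
    rw [Finset.sum_congr rfl h3, Finset.sum_ite_eq']
    split_ifs with h5
    · rfl
    · rw [homogeneousComponent_eq_zero, zero_mul]
      simp only [Finset.mem_range, not_lt] at h5
      omega
  have h2 := mul_right_cancel₀ hF0 h1
  rw [← h2]
  exact homogeneousComponent_isHomogeneous b G

/-- the multiples of `F` by forms of degree `a` -/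
noncomputable def mu (F : MvPolynomial (Fin 4) K) (a : ℕ) : Submodule K (MvPolynomial (Fin 4) K) :=
  (homogeneousSubmodule (Fin 4) K a).map (LinearMap.mulLeft K F)

instance fin_mu (F : MvPolynomial (Fin 4) K) (a : ℕ) : Module.Finite K (mu F a) := by
  unfold mu
  infer_instance

lemma mem_mu {F : MvPolynomial (Fin 4) K} {a : ℕ} {P : MvPolynomial (Fin 4) K} :
    P ∈ mu F a ↔ ∃ Q : MvPolynomial (Fin 4) K, Q.IsHomogeneous a ∧ F * Q = P := by
  unfold mu
  rw [Submodule.mem_map]
  rfl

lemma finrank_mu {F : MvPolynomial (Fin 4) K} (hF : F ≠ 0) (a : ℕ) :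
    finrank K (mu F a) = (a + 3).choose 3 := by
  rw [← finrank_homog (K := K) a]
  have hinj : Function.Injective (LinearMap.mulLeft K F) := by
    intro x y h
    exact mul_left_cancel₀ hF h
  exact (Submodule.equivMapOfInjective _ hinj _).finrank_eq.symm

lemma inf_le {F G : MvPolynomial (Fin 4) K} {D g : ℕ} (hF : F.IsHomogeneous D)
    (hFi : Irreducible F) (hFG : ¬ F ∣ G) (m : ℕ) :
    mu F (m + g) ⊓ mu G (m + D) ≤ mu (F * G) m := by
  intro x hx
  obtain ⟨⟨P, hP, hPx⟩, ⟨Q, hQ, hQx⟩⟩ := hx
  change F * P = x at hPx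
  change G * Q = x at hQx
  have hQ : Q.IsHomogeneous (m + D) := hQ
  have hdvd : F ∣ G * Q := ⟨P, by rw [hQx, hPx]⟩
  obtain ⟨R, hR⟩ := (hFi.prime.dvd_or_dvd hdvd).resolve_left hFG
  rw [mem_mu]
  refine ⟨R, ?_, ?_⟩
  · apply hom_of_mul hF hFi.ne_zero
    rw [mul_comm, ← hR]
    exact hQ
  · rw [← hQx, hR]
    ring

lemma finrank_sup_ge {F G : MvPolynomial (Fin 4) K} {D g : ℕ} (hF : F.IsHomogeneous D)
    (hFi : Irreducible F) (hFG : ¬ F ∣ G) (m : ℕ) :
    (m + g + 3).choose 3 + (m + D + 3).choose 3 ≤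
      finrank K (mu F (m + g) ⊔ mu G (m + D) : Submodule K (MvPolynomial (Fin 4) K)) +
        (m + 3).choose 3 := by
  have hG0 : G ≠ 0 := by
    rintro rfl
    exact hFG (dvd_zero F)
  have h1 := Submodule.finrank_sup_add_finrank_inf_eq (mu F (m + g)) (mu G (m + D))
  have h2 := Submodule.finrank_mono (inf_le (g := g) hF hFi hFG m)
  rw [finrank_mu (mul_ne_zero hFi.ne_zero hG0)] at h2
  rw [finrank_mu hFi.ne_zero, finrank_mu hG0] at h1
  omega

end

lemma six_choose (n : ℕ) : 6 * (n + 3).choose 3 = (n + 3) * (n + 2) * (n + 1) := by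
  have h1 := Nat.add_one_mul_choose_eq (n + 2) 2
  have h2 := Nat.add_one_mul_choose_eq (n + 1) 1
  simp only [Nat.choose_one_right] at h1 h2
  have e1 : n + 2 + 1 = n + 3 := rfl
  have e2 : n + 1 + 1 = n + 2 := rfl
  rw [e1] at h1
  rw [e2] at h2
  nlinarith [h1, h2]

lemma count (D g δ : ℕ) (hD : 1 ≤ D) :
    ∃ m : ℕ, ∃ M : ℕ, m + D + g = D * g * δ + M ∧
      (m + D + g + 3).choose 3 + (m + 3).choose 3 <
        (D * g + 1) * (M + 1) + ((m + g + 3).choose 3 + (m + D + 3).choose 3) := by
  refine ⟨D * g * δ + (D * g) * (D * g) * δ, (D * g) * (D * g) * δ + D + g, by ring, ?_⟩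
  set d := D * g with hd
  set m := d * δ + d * d * δ with hm
  have h1 := six_choose (m + D + g)
  have h2 := six_choose m
  have h3 := six_choose (m + g)
  have h4 := six_choose (m + D)
  have key : 6 * ((m + D + g + 3).choose 3 + (m + 3).choose 3) <
      6 * ((d + 1) * (d * d * δ + D + g + 1) + ((m + g + 3).choose 3 + (m + D + 3).choose 3)) := by
    have e : (m + D + g + 3) * (m + D + g + 2) * (m + D + g + 1) + (m + 3) * (m + 2) * (m + 1) =
        (m + g + 3) * (m + g + 2) * (m + g + 1) + (m + D + 3) * (m + D + 2) * (m + D + 1) +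
          3 * d * (2 * m + D + g + 4) := by
      rw [hd]; ring
    rcases Nat.eq_zero_or_pos g with hg | hg
    · have hd0 : d = 0 := by rw [hd, hg, mul_zero]
      rw [hd0] at e ⊢
      nlinarith
    · have h5 : 3 * d * (2 * m + D + g + 4) ≤ 6 * d * (m + D + g + 1) := by
        have : 2 * m + D + g + 4 ≤ 2 * (m + D + g + 1) := by omega
        calc 3 * d * (2 * m + D + g + 4) ≤ 3 * d * (2 * (m + D + g + 1)) :=
              Nat.mul_le_mul_left _ this
          _ = 6 * d * (m + D + g + 1) := by ring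
      have h6 : 6 * d * (m + D + g + 1) < 6 * ((d + 1) * (d * d * δ + D + g + 1)) := by
        rw [hm]
        nlinarith [Nat.zero_le (d * d * δ)]
      nlinarith
  omega

theorem t_DIM : Pool.Agent.K1H47.CO.S_DIM.{u} := by
  intro K _ F G D g hF hG hFi hFG
  have hD : 1 ≤ D := by
    by_contra h
    have hD0 : D = 0 := by omega
    subst hD0
    have h1 : F = C (coeff 0 F) := by
      have h2 : F.totalDegree = 0 := by
        rw [hF.totalDegree hFi.ne_zero]
      exact totalDegree_eq_zero_iff_eq_C.mp h2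
    apply hFi.not_isUnit
    rw [h1]
    apply IsUnit.map
    rw [isUnit_iff_ne_zero]
    intro h3
    apply hFi.ne_zero
    rw [h1, h3, C_0]
  refine ⟨D * g, ?_⟩
  intro δ A B hA hB i j
  obtain ⟨m, M, hmM, hcount⟩ := count D g δ hD
  refine ⟨M, ?_⟩
  set d := D * g with hd
  let J : Submodule K (MvPolynomial (Fin 4) K) := mu F (m + g) ⊔ mu G (m + D)
  have hJH : J ≤ homogeneousSubmodule (Fin 4) K (m + D + g) := by
    refine sup_le ?_ ?_
    · rintro _ ⟨P, hP, rfl⟩
      have := hF.mul (show P.IsHomogeneous (m + g) from hP)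
      rw [show D + (m + g) = m + D + g by ring] at this
      exact this
    · rintro _ ⟨P, hP, rfl⟩
      have := hG.mul (show P.IsHomogeneous (m + D) from hP)
      rw [show g + (m + D) = m + D + g by ring] at this
      exact this
  have hJI : ∀ x ∈ J, x ∈ Ideal.span {F, G} := by
    intro x hx
    obtain ⟨y, ⟨P, -, rfl⟩, z, ⟨Q, -, rfl⟩, rfl⟩ := Submodule.mem_sup.mp hx
    rw [Ideal.mem_span_pair]
    refine ⟨P, Q, ?_⟩
    simp only [LinearMap.mulLeft_apply]
    ring
  -- the linear map
  let φ : (Fin (d + 1) → Fin (M + 1) → K) →ₗ[K] MvPolynomial (Fin 4) K :=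
    { toFun := fun c => ∑ l : Fin (d + 1), ∑ k : Fin (M + 1),
        C (c l k) * (A ^ (l : ℕ) * B ^ (d - l) * (X i ^ (k : ℕ) * X j ^ (M - k)))
      map_add' := by
        intro c c'
        simp only [Pi.add_apply, C_add, add_mul, Finset.sum_add_distrib]
      map_smul' := by
        intro a c
        simp only [Pi.smul_apply, smul_eq_mul, C_mul, RingHom.id_apply, Finset.smul_sum,
          smul_eq_C_mul, mul_assoc] }
  have hφ : ∀ c, φ c ∈ homogeneousSubmodule (Fin 4) K (m + D + g) := by
    intro c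
    change (∑ l : Fin (d + 1), ∑ k : Fin (M + 1),
        C (c l k) * (A ^ (l : ℕ) * B ^ (d - l) * (X i ^ (k : ℕ) * X j ^ (M - k)))) ∈ _
    refine Submodule.sum_mem _ fun l _ => Submodule.sum_mem _ fun k _ => ?_
    rw [mem_homogeneousSubmodule]
    have h1 := (hA.pow (l : ℕ)).mul (hB.pow (d - l))
    have h2 := ((isHomogeneous_X K i).pow (k : ℕ)).mul ((isHomogeneous_X K j).pow (M - k))
    have h3 := (isHomogeneous_C (Fin 4) (c l k)).mul (h1.mul h2)
    have hl : (l : ℕ) ≤ d := Nat.lt_succ_iff.mp l.2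
    have hk : (k : ℕ) ≤ M := Nat.lt_succ_iff.mp k.2
    have e : 0 + ((δ * l + δ * (d - l)) + (1 * k + 1 * (M - k))) = m + D + g := by
      rw [hmM, ← mul_add, Nat.add_sub_cancel' hl, one_mul, one_mul, Nat.add_sub_cancel' hk]
      ring
    rw [e] at h3
    exact h3
  let Hh := homogeneousSubmodule (Fin 4) K (m + D + g)
  let Ψ : ((Fin (d + 1) → Fin (M + 1) → K) × J) →ₗ[K] Hh :=
    LinearMap.coprod (LinearMap.codRestrict Hh φ hφ) (-(Submodule.inclusion hJH))
  have hJfin : Module.Finite K J := by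
    change Module.Finite K (mu F (m + g) ⊔ mu G (m + D) : Submodule K (MvPolynomial (Fin 4) K))
    infer_instance
  have hdim : finrank K Hh < finrank K ((Fin (d + 1) → Fin (M + 1) → K) × J) := by
    rw [Module.finrank_prod, finrank_homog]
    have h1 : finrank K (Fin (d + 1) → Fin (M + 1) → K) = (d + 1) * (M + 1) := by
      simp [Module.finrank_pi_fintype]
    rw [h1]
    have h2 := finrank_sup_ge (g := g) hF hFi hFG m
    have h3 : finrank K J = finrank K (mu F (m + g) ⊔ mu G (m + D) :
      Submodule K (MvPolynomial (Fin 4) K)) := rfl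
    omega
  obtain ⟨z, hz, hz0⟩ := Submodule.exists_mem_ne_zero_of_ne_bot
    (LinearMap.ker_ne_bot_of_finrank_lt (f := Ψ) hdim)
  obtain ⟨c, x⟩ := z
  have h1 : φ c = (x : MvPolynomial (Fin 4) K) := by
    have h2 := congrArg (fun y : Hh => (y : MvPolynomial (Fin 4) K)) (LinearMap.mem_ker.mp hz)
    simp only [Ψ, LinearMap.coprod_apply, LinearMap.neg_apply, Submodule.coe_add,
      Submodule.coe_neg, LinearMap.codRestrict_apply, Submodule.coe_inclusion,
      Submodule.coe_zero] at h2
    linear_combination h2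
  refine ⟨c, ?_, ?_⟩
  · rintro rfl
    rw [map_zero] at h1
    apply hz0
    refine Prod.ext rfl (Subtype.ext h1.symm)
  · have h3 := hJI _ x.2
    rw [← h1] at h3
    exact h3

end Pool.Agent.K1H24.CO
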